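import Pool.Agent.H53.MW.Targets

/-!
MP_c62aed_lc, permanent lines and work memory: the value of a gate is a derived inequality (row
CRM).
-/

set_option autoImplicit false

namespace Pool.Agent.H38.MW

open Finset Pool.Agent.H53.MW
open Pool.Agent.H53.MC (Clause Falsified SatBy Line Circuit)

theorem mem_geL {n : ℕ} (f : (Fin n → Bool) → ℝ) (a : ℝ) (x : Fin n → Bool) :
    x ∈ geL f a ↔ a ≤ f x := by
  simp [geL]

theorem session_zero {n : ℕ} (Φ : Set (Clause n)) (P : Line n → Prop) (t : ℕ) (L : Line n)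
    (h : Follows Φ P t ∅ L) : Session Φ P ∅ t 1 L :=
  ⟨0, fun _ => ∅, Nat.one_pos, rfl, h, fun j hj => absurd hj (Nat.not_lt_zero j)⟩

theorem pf_CRM : T_CRM := by
  classical
  intro n Φ t s h ht hC i a hi ha 𝓓 hD
  induction i using Nat.strong_induction_on generalizing a with
  | _ i ih =>
    apply hD
    apply session_zero
    rcases hC i hi with ⟨c, hc⟩ | ⟨J, hJ, hJi, hmon⟩
    · by_cases hcΦ : c ∈ Φ
      · refine ⟨∅, {c}, by simp, by simp, by simpa using ht, by simpa using hcΦ, ?_⟩
        intro x _ _ hx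
        rw [mem_geL]
        have h1 : c ∈ SatBy x := hx c (mem_singleton_self c)
        show a ≤ h i (SatBy x)
        rw [(hc (SatBy x)).1 h1, ← (hc Φ).1 hcΦ]
        exact ha
      · refine ⟨∅, ∅, by simp, by simp, by simp, by simp, ?_⟩
        intro x _ _ _
        rw [mem_geL]
        show a ≤ h i (SatBy x)
        have h0 : a ≤ 0 := by rw [← (hc Φ).2 hcΦ]; exact ha
        by_cases h1 : c ∈ SatBy x
        · rw [(hc (SatBy x)).1 h1]; linarith
        · rw [(hc (SatBy x)).2 h1]; exact h0
    · refine ⟨J.image fun j => geL (fun x => h j (SatBy x)) (h j Φ), ∅, card_image_le.trans hJ,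
        ?_, by simp, by simp, ?_⟩
      · intro Q hQ
        obtain ⟨j, hj, rfl⟩ := mem_image.1 hQ
        exact ⟨j, h j Φ, hJi j hj, ih j (hJi j hj) (h j Φ) ((hJi j hj).trans hi) le_rfl, rfl⟩
      · intro x _ hx _
        rw [mem_geL]
        show a ≤ h i (SatBy x)
        refine ha.trans (hmon Φ (SatBy x) fun j hj => ?_)
        have h2 := hx _ (mem_image.2 ⟨j, hj, rfl⟩)
        rwa [mem_geL] at h2

end Pool.Agent.H38.MW
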